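import Mathlib
import Pool.Agent.H.MP_467638_an.C

namespace Pool.Agent.H.MP_569b71_an

open MeasureTheory ProbabilityTheory Set Filter Topology Module Pool.Agent.H.MP_467638_an
open scoped ENNReal InnerProductSpace

variable {𝕜 : Type} [RCLike 𝕜] {r m : ℕ}

/-- lower bound of the projected error -/
noncomputable def Ψ (K : Submodule 𝕜 (V 𝕜 r)) (t : ℕ) (u : Fin m → V 𝕜 r) : ℝ≥0∞ :=
  ∑ i, ⨆ c : V 𝕜 m, ‖T u c i‖ₑ ^ 2 * (‖K.starProjection (T u c)‖ₑ ^ 2 * ((t + 1 : ℝ≥0∞) ^ 2)⁻¹ +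
    ‖Kᗮ.starProjection (T u c)‖ₑ ^ 2)⁻¹

lemma Ψ_mono (K : Submodule 𝕜 (V 𝕜 r)) (u : Fin m → V 𝕜 r) : Monotone fun t => Ψ K t u :=
  fun _ _ _ => Finset.sum_le_sum fun _ _ => iSup_mono fun v => by gcongr

lemma Ψ_le (K : Submodule 𝕜 (V 𝕜 r)) (t : ℕ) {u u' : Fin m → V 𝕜 r}
    (h : ∀ c : V 𝕜 m, ∃ c' : V 𝕜 m, T u c = T u' c') : Ψ K t u ≤ Ψ K t u' :=
  Finset.sum_le_sum fun _ _ => iSup_mono' fun c => (h c).imp fun _ e => by rw [e]

lemma lim_aux {a b : ℝ≥0∞} (ha : a ≠ ⊤) (hb : b ≠ ⊤) (e : ℝ≥0∞) :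
    a * e⁻¹ ≤ ⨆ t : ℕ, a * (b * ((t + 1 : ℝ≥0∞) ^ 2)⁻¹ + e)⁻¹ := by
  have t : Tendsto (fun t : ℕ => ((t + 1 : ℝ≥0∞) ^ 2)⁻¹) atTop (𝓝 0) := by
    refine tendsto_of_tendsto_of_tendsto_of_le_of_le tendsto_const_nhds
      ENNReal.tendsto_inv_nat_nhds_zero (fun _ => zero_le) fun n => ENNReal.inv_le_inv.2 ?_
    exact le_self_add.trans (le_self_pow₀ le_add_self two_ne_zero)
  have := ENNReal.Tendsto.const_mul (a := a) ((ENNReal.Tendsto.const_mul
    (a := b) t (Or.inr hb)).add_const e).inv (Or.inr ha)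
  rw [mul_zero, zero_add] at this
  exact le_of_tendsto' this fun t => le_iSup (fun t : ℕ =>
    a * (b * ((t + 1 : ℝ≥0∞) ^ 2)⁻¹ + e)⁻¹) t

lemma en_sq {k : ℕ} (x : V 𝕜 k) : ‖x‖ₑ ^ 2 = ∑ i, ‖x i‖ₑ ^ 2 := by
  simp only [en2]
  rw [EuclideanSpace.norm_sq_eq, ENNReal.ofReal_sum_of_nonneg fun _ _ => sq_nonneg _]

lemma T_T {E : Type} [AddCommGroup E] [Module 𝕜 E] {k : ℕ} (u : Fin m → E) (c : Fin k → V 𝕜 m)
    (a : V 𝕜 k) : T u (T c a) = T (fun j => T u (c j)) a := by
  rw [T_ap c, map_sum, T_ap fun j => T u (c j)]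
  simp only [map_smul]

lemma map_T {E F : Type} [AddCommGroup E] [Module 𝕜 E] [AddCommGroup F] [Module 𝕜 F]
    {G : Type} [FunLike G E F] [LinearMapClass G 𝕜 E F] (f : G) (u : Fin m → E) (a : V 𝕜 m) :
    f (T u a) = T (fun j => f (u j)) a := by
  simp only [T_ap, map_sum, map_smul]

lemma T_single {k : ℕ} (a : V 𝕜 k) : T (fun j => (EuclideanSpace.single j 1 : V 𝕜 k)) a = a := by
  ext i
  simp [T_ap, Pi.single_apply]

variable [MeasurableSpace 𝕜] [BorelSpace 𝕜]

lemma Ψ_meas (K : Submodule 𝕜 (V 𝕜 r)) (t : ℕ) : Measurable fun u : Fin m → V 𝕜 r => Ψ K t u := by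
  refine Finset.measurable_sum _ fun i _ => LowerSemicontinuous.measurable
    (lowerSemicontinuous_iSup fun c u => ?_)
  by_cases z : T u c = 0
  · intro y hy
    simp [z] at hy
  have cT : Continuous fun u : Fin m → V 𝕜 r => T u c := by simp only [T_ap]; fun_prop
  have c2 : ∀ {f : (Fin m → V 𝕜 r) → ℝ≥0∞}, Continuous f → Continuous fun u => f u ^ 2 :=
    fun h => (ENNReal.continuous_pow 2).comp h
  refine ContinuousAt.lowerSemicontinuousAt (ENNReal.Tendsto.mul (c2 (by fun_prop)).continuousAt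
    (Or.inr ?_) (((ENNReal.continuous_mul_const (by simp)).comp (c2 (by fun_prop))).add
      (c2 (by fun_prop))).inv.continuousAt (Or.inr (by simp)))
  intro h
  simp only [ENNReal.inv_eq_top, add_eq_zero,
    mul_eq_zero, ENNReal.inv_eq_zero, pow_eq_zero_iff two_ne_zero, enorm_eq_zero] at h
  rcases h with ⟨h1 | h1, h2⟩
  · rw [Submodule.starProjection_orthogonal_val, h1, sub_zero] at h2
    exact z h2
  · exact absurd h1 (by simp)

lemma Ψ_int {K : Submodule 𝕜 (V 𝕜 r)} {q s k : ℕ} (hK : finrank 𝕜 K = q) (hr : r = q + s)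
    (hk : s + 1 = m + k) (h2 : 2 < finrank ℝ 𝕜 * k) :
    m + m * .ofReal (1 / (finrank ℝ 𝕜 * k - 2)) * (finrank ℝ 𝕜 * q : ℕ) ≤
      ∫⁻ u, ⨆ t, Ψ K t u ∂Measure.pi fun _ : Fin m => stdGaussian (V 𝕜 r) := by
  have e := K.finrank_add_finrank_orthogonal
  rw [hK, finrank_euclideanSpace_fin] at e
  have k0 : k ≠ 0 := by rintro rfl; simp at h2
  obtain ⟨J, L, h1, h3, h4⟩ := emb K hK
  obtain ⟨J', L', h1', h3', h4'⟩ := emb Kᗮ (k := s) (by omega)
  have m0 : MeasurePreserving (fun p : V 𝕜 q × V 𝕜 s => J p.1 + J' p.2) _ _ :=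
    g_add (Continuous.measurable (by fun_prop)) L L' (fun x y => by
      rw [inner_add_left, real_inner_comm, ri 𝕜, ← h1, real_inner_comm y, ri 𝕜 y, ← h1',
        real_inner_comm, ri 𝕜, real_inner_comm (L' y), ri 𝕜]) fun x => by
      rw [← J.norm_map, ← J'.norm_map, h3, h3', ← Submodule.norm_sq_eq_add_norm_sq_starProjection]
  have m1 := (measurePreserving_pi _ _ fun _ : Fin m => m0).comp
    (measurePreserving_arrowProdEquivProdArrow _ _ _
      (fun _ => stdGaussian (V 𝕜 q)) fun _ => stdGaussian (V 𝕜 s)).symm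
  have mΨ : Measurable fun u : Fin m → V 𝕜 r => ⨆ t, Ψ K t u :=
    Measurable.iSup fun t => Ψ_meas K t
  have mh : ∀ j, Measurable fun u : Fin m → V 𝕜 s => ⨆ t, h 𝕜 t u j := fun j =>
    Measurable.iSup fun t => h_meas t j
  rw [← m1.lintegral_comp mΨ,
    lintegral_prod_symm _ (by exact (mΨ.comp m1.measurable).aemeasurable)]
  refine le_trans ?_ (lintegral_mono_ae (f := fun w => m + (∑ j, ⨆ t, h 𝕜 t w j) *
    (finrank ℝ 𝕜 * q : ℕ)) ?_)
  · rw [lintegral_add_left measurable_const, lintegral_const, measure_univ, mul_one,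
      lintegral_mul_const _ (Finset.measurable_sum _ fun j _ => mh j),
      lintegral_finsetSum _ fun j _ => mh j]
    refine add_le_add le_rfl (mul_le_mul' (le_trans (by simp) (Finset.sum_le_sum fun j _ =>
      h_int (by rw [finrank_euclideanSpace_fin, hk]) h2 j)) le_rfl)
  filter_upwards [li_ae (𝕜 := 𝕜) (E := V 𝕜 s) (Finset.univ : Finset (Fin m))
    (by simp; omega)] with w hw
  rw [Finset.coe_univ, linearIndepOn_univ_iff] at hw
  obtain ⟨J2, L2, -, g2, g3⟩ := emb (Submodule.span 𝕜 (range w))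
    ((finrank_span_eq_card hw).trans (Fintype.card_fin _))
  choose c hc using fun j => (Submodule.mem_span_range_iff_exists_fun 𝕜).1
    (g3 (EuclideanSpace.single j 1))
  have a1 : ∀ a, T w (T (fun j => (WithLp.toLp 2 (c j) : V 𝕜 m)) a) = J2 a := fun a => by
    rw [T_T, ← T_single a, map_T J2, T_single]
    congr 2
    exact funext hc
  generalize (fun j => (WithLp.toLp 2 (c j) : V 𝕜 m)) = d at a1
  have a2 : ∀ j, ⨆ t, h 𝕜 t w j ≤ ∑ l, ‖d l j‖ₑ ^ 2 := fun j =>
    iSup_le fun t => iSup_le fun v => by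
      have b1 : J2 (L2 (T w v)) = T w v := by
        rw [g2, Submodule.starProjection_eq_self_iff, T_ap]
        exact Submodule.sum_mem _ fun i _ =>
          Submodule.smul_mem _ _ (Submodule.subset_span (mem_range_self i))
      have b2 : T d (L2 (T w v)) = v := by
        rw [← a1, ← sub_eq_zero, ← map_sub, T_ap] at b1
        ext i
        exact sub_eq_zero.1 (Fintype.linearIndependent_iff.1 hw _ b1 i)
      rw [← b1, J2.enorm_map]
      generalize L2 (T w v) = a at b2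
      refine (mul_le_mul' le_rfl (ENNReal.inv_le_inv.2 le_add_self)).trans
        (ENNReal.div_le_of_le_mul' ?_)
      rw [en_sq, ← b2, T_ap]
      simp only [en2]
      rw [← ENNReal.ofReal_sum_of_nonneg fun _ _ => sq_nonneg _,
        ← ENNReal.ofReal_sum_of_nonneg fun _ _ => sq_nonneg _,
        ← ENNReal.ofReal_mul (by positivity)]
      refine ENNReal.ofReal_le_ofReal ((pow_le_pow_left₀ (norm_nonneg _) ?_ 2).trans
        (Finset.sum_mul_sq_le_sq_mul_sq _ _ _))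
      simp only [WithLp.ofLp_sum, Finset.sum_apply, PiLp.smul_apply, smul_eq_mul, ← norm_mul]
      exact norm_sum_le _ _
  refine le_trans ?_ (lintegral_mono (f := fun z => ∑ l, (‖T z (d l)‖ₑ ^ 2 + 1)) fun z => ?_)
  · rw [lintegral_finsetSum _ fun l _ => by simp only [T_ap]; fun_prop]
    have := fun l => sum_sq (E := V 𝕜 q) (fun j => d l j) Finset.univ 0
    simp only [zero_add, enorm_zero, zero_pow two_ne_zero, rk] at this
    simp only [lintegral_add_right _ measurable_const, T_ap, this, lintegral_const, measure_univ,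
      mul_one, Finset.sum_add_distrib, ← Finset.sum_mul]
    rw [add_comm, Finset.sum_comm]
    exact add_le_add (mul_le_mul' (Finset.sum_le_sum fun j _ => a2 j) le_rfl) (by simp)
  · let u : Fin m → V 𝕜 r := fun j => J (z j) + J' (w j)
    have s1 : ∀ x : V 𝕜 m, T u x = J (T z x) + J' (T w x) := fun x => by
      simp [u, T_ap, Finset.sum_add_distrib]
    have s2 : ∀ x : V 𝕜 m, Kᗮ.starProjection (T u x) = J' (T w x) := fun x => by
      rw [s1, map_add, Submodule.starProjection_eq_self_iff.2 (h4' _),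
        (Submodule.starProjection_apply_eq_zero_iff _).2 (K.le_orthogonal_orthogonal (h4 _)),
        zero_add]
    have s3 : ∀ l, ‖T z (d l)‖ₑ ^ 2 + 1 = ∑ i, ‖T u (d l) i‖ₑ ^ 2 := fun l => by
      have := a1 (EuclideanSpace.single l 1)
      rw [T_ap d, Finset.sum_eq_single l (by simp +contextual) (by simp)] at this
      simp only [PiLp.single_apply, if_true, one_smul] at this
      rw [← en_sq, s1, en2 (J _ + _), sq ‖J _ + _‖,
        norm_add_sq_eq_norm_sq_add_norm_sq_of_inner_eq_zero _ _ (h4' _ _ (h4 _)), J.norm_map,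
        J'.norm_map, this, J2.norm_map, ENNReal.ofReal_add (by positivity) (by positivity), ← sq,
        ← en2]
      simp
    show _ ≤ ⨆ t, Ψ K t u
    simp only [s3, Ψ]
    rw [Finset.sum_comm, ← ENNReal.finsetSum_iSup_of_monotone fun i _ _ _ =>
      iSup_mono fun v => by gcongr]
    refine Finset.sum_le_sum fun i _ => ?_
    rw [iSup_comm]
    let a : V 𝕜 m := WithLp.toLp 2 fun l => star (T u (d l) i)
    refine le_iSup_of_le (T d a) (le_trans ?_ (lim_aux (by simp) (by simp) _))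
    have s4 : ‖a‖ₑ ^ 2 = ∑ l, ‖T u (d l) i‖ₑ ^ 2 := by
      rw [en_sq]
      simp only [a, en2, norm_star]
    have s5 : ‖T u (T d a) i‖ₑ = ‖a‖ₑ ^ 2 := by
      rw [T_T, T_ap, en2, EuclideanSpace.norm_sq_eq, ← ofReal_norm]
      simp only [WithLp.ofLp_sum, Finset.sum_apply, PiLp.smul_apply, smul_eq_mul, a,
        RCLike.star_def, RCLike.conj_mul, RCLike.norm_conj, ← RCLike.ofReal_pow,
        ← RCLike.ofReal_sum, RCLike.norm_ofReal]
      rw [abs_of_nonneg (by positivity)]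
    rw [s2, J'.enorm_map, a1, J2.enorm_map, s5, ← s4]
    by_cases z : ‖a‖ₑ ^ 2 = 0
    · simp [z]
    · rw [sq (_ ^ 2), mul_assoc, ENNReal.mul_inv_cancel z (by simp), mul_one]

end Pool.Agent.H.MP_569b71_an
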