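import Mathlib
import Pool.Agent.H.MP_569b71_an.A

namespace Pool.Agent.H.MP_569b71_an

open MeasureTheory ProbabilityTheory Set Filter Topology Module Matrix Pool.Agent.H.MP_467638_an
open scoped ENNReal InnerProductSpace

variable {𝕜 : Type} [RCLike 𝕜] {r m n d l : ℕ}

/-- the unitary group -/
noncomputable abbrev G (𝕜 : Type) [RCLike 𝕜] (r : ℕ) := unitary (V 𝕜 r →L[𝕜] V 𝕜 r)

instance : ProperSpace (V 𝕜 r →L[𝕜] V 𝕜 r) := FiniteDimensional.proper_rclike 𝕜 _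

instance : ContinuousStar (V 𝕜 r →L[𝕜] V 𝕜 r) := ⟨ContinuousLinearMap.adjoint.continuous⟩

instance : CompactSpace (G 𝕜 r) := isCompact_iff_compactSpace.1
  (Metric.isCompact_of_isClosed_isBounded isClosed_unitary (isBounded_iff_forall_norm_le.2
    ⟨1, fun u hu => u.opNorm_le_bound zero_le_one fun x => by
      rw [u.norm_map_of_mem_unitary hu, one_mul]⟩))

noncomputable instance : MeasurableSpace (G 𝕜 r) := borel _

instance : BorelSpace (G 𝕜 r) := ⟨rfl⟩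

instance : SecondCountableTopology (G 𝕜 r) :=
  TopologicalSpace.Subtype.secondCountableTopology (G 𝕜 r : Set (V 𝕜 r →L[𝕜] V 𝕜 r))

lemma haar : ∃ ρ : Measure (G 𝕜 r), IsProbabilityMeasure ρ ∧ ρ.IsMulRightInvariant :=
  have : IsProbabilityMeasure (Measure.haarMeasure (⊤ : TopologicalSpace.PositiveCompacts
    (G 𝕜 r))) := ⟨Measure.haarMeasure_self⟩
  ⟨(Measure.haarMeasure ⊤).inv, Measure.isProbabilityMeasure_map measurable_inv.aemeasurable,
    inferInstance⟩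

lemma ex_fam {E : Type} [AddCommGroup E] [Module 𝕜 E] (W : Submodule 𝕜 E) {k : ℕ}
    (h : k ≤ finrank 𝕜 W) :
    ∃ v : Fin k → E, (∀ j, v j ∈ W) ∧ finrank 𝕜 (Submodule.span 𝕜 (range v)) = k := by
  obtain ⟨f, hf⟩ := exists_linearIndependent_of_le_finrank h
  exact ⟨fun j => f j, fun j => (f j).2, (finrank_span_eq_card
    (hf.map' W.subtype W.ker_subtype)).trans (Fintype.card_fin _)⟩

lemma hs {E F ι κ : Type} [NormedAddCommGroup E] [InnerProductSpace 𝕜 E] [NormedAddCommGroup F]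
    [InnerProductSpace 𝕜 F] [Fintype ι] [Fintype κ] (b : OrthonormalBasis ι 𝕜 E)
    (f : OrthonormalBasis κ 𝕜 F) {A : E → F} {B : F → E} (h : ∀ x t, ⟪A x, t⟫_𝕜 = ⟪x, B t⟫_𝕜) :
    ∑ i, ‖A (b i)‖ ^ 2 = ∑ k, ‖B (f k)‖ ^ 2 := by
  simp only [← f.sum_sq_norm_inner_left, h, ← b.sum_sq_norm_inner_right]
  exact Finset.sum_comm

lemma hs2 {k : ℕ} (A : V 𝕜 r →L[𝕜] V 𝕜 k) (W : G 𝕜 r) (J : V 𝕜 r →ₗᵢ[𝕜] V 𝕜 n)
    (L : V 𝕜 n →L[𝕜] V 𝕜 r) (h : ∀ x t, ⟪L x, t⟫_𝕜 = ⟪x, J t⟫_𝕜) :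
    ∑ j, ‖A (W.1 (L (EuclideanSpace.single j 1)))‖ ^ 2 =
      ∑ i, ‖A (EuclideanSpace.single i 1)‖ ^ 2 := by
  have a := hs (EuclideanSpace.basisFun (Fin n) 𝕜) (EuclideanSpace.basisFun (Fin k) 𝕜)
    (A := fun x => A (W.1 (L x))) (B := fun t => J ((star W).1 (A.adjoint t))) fun x t => by
      rw [← h, ← A.adjoint_inner_right, ← W.1.adjoint_inner_right]; rfl
  have b := hs (EuclideanSpace.basisFun (Fin r) 𝕜) (EuclideanSpace.basisFun (Fin k) 𝕜)
    (A := A) (B := A.adjoint) fun x t => (A.adjoint_inner_right _ _).symm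
  simp only [EuclideanSpace.basisFun_apply, J.norm_map, Unitary.norm_map] at a b
  rw [a, b]

/-- the diagonal operator -/
noncomputable def D (K : Submodule 𝕜 (V 𝕜 r)) (c : 𝕜) : V 𝕜 r →L[𝕜] V 𝕜 r :=
  c • K.starProjection + Kᗮ.starProjection

lemma D_inner (K : Submodule 𝕜 (V 𝕜 r)) (a b : 𝕜) (x y : V 𝕜 r) : ⟪D K a x, D K b y⟫_𝕜 =
    (starRingEnd 𝕜) a * b * ⟪K.starProjection x, K.starProjection y⟫_𝕜 +
      ⟪Kᗮ.starProjection x, Kᗮ.starProjection y⟫_𝕜 := by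
  have e := fun x y => Kᗮ.starProjection_apply_mem y _ (K.starProjection_apply_mem x)
  simp only [D, _root_.add_apply, _root_.smul_apply, inner_add_left,
    inner_add_right, inner_smul_left, inner_smul_right, e, inner_eq_zero_symm.1 (e _ _)]
  ring

lemma D_inv (K : Submodule 𝕜 (V 𝕜 r)) (t : ℕ) (x y : V 𝕜 r) :
    ⟪D K (t + 1 : 𝕜)⁻¹ x, D K (t + 1) y⟫_𝕜 = ⟪x, y⟫_𝕜 := by
  have t0 : (t + 1 : 𝕜) ≠ 0 := by exact_mod_cast t.succ_ne_zero
  have e : ∀ x, D K 1 x = x := fun x => by simp [D]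
  rw [← e x, ← e y, D_inner K 1, e, e, D_inner]
  simp [inv_mul_cancel₀ t0]

lemma proj_ge (K : Submodule 𝕜 (V 𝕜 r)) (t : ℕ) (u : Fin m → V 𝕜 r) :
    Ψ K t u ≤ ∑ i, ‖(Submodule.span 𝕜 (range fun j => D K (t + 1 : 𝕜)⁻¹ (u j))).starProjection
      (D K (t + 1) (EuclideanSpace.single i 1))‖ₑ ^ 2 := by
  have t0 : (t + 1 : 𝕜) ≠ 0 := by exact_mod_cast t.succ_ne_zero
  refine Finset.sum_le_sum fun i _ => iSup_le fun c => ENNReal.div_le_of_le_mul ?_
  have e : ‖K.starProjection (T u c)‖ₑ ^ 2 * ((t + 1 : ℝ≥0∞) ^ 2)⁻¹ +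
      ‖Kᗮ.starProjection (T u c)‖ₑ ^ 2 = ‖D K (t + 1 : 𝕜)⁻¹ (T u c)‖ₑ ^ 2 := by
    rw [en2 (D _ _ _), D, _root_.add_apply, _root_.smul_apply,
      sq ‖_ + _‖, norm_add_sq_eq_norm_sq_add_norm_sq_of_inner_eq_zero (𝕜 := 𝕜) _ _
        (Kᗮ.starProjection_apply_mem _ _ (K.smul_mem _ (K.starProjection_apply_mem _))),
      ENNReal.ofReal_add (by positivity) (by positivity), ← sq, ← sq, ← en2, ← en2, enorm_smul,
      enorm_inv t0, mul_pow, mul_comm, ENNReal.inv_pow, ← Nat.cast_succ (R := 𝕜),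
      ← ofReal_norm ((t.succ : ℕ) : 𝕜), RCLike.norm_natCast, ENNReal.ofReal_natCast, Nat.cast_succ]
  have f : D K (t + 1 : 𝕜)⁻¹ (T u c) ∈
      Submodule.span 𝕜 (range fun j => D K (t + 1 : 𝕜)⁻¹ (u j)) := by
    rw [map_T, T_ap]
    exact Submodule.sum_mem _ fun i _ =>
      Submodule.smul_mem _ _ (Submodule.subset_span (mem_range_self i))
  rw [e, ← mul_pow, mul_comm]
  refine pow_le_pow_left₀ zero_le ?_ 2
  rw [← ofReal_norm, ← ofReal_norm, ← ofReal_norm, ← ENNReal.ofReal_mul (norm_nonneg _)]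
  refine ENNReal.ofReal_le_ofReal (le_trans (le_of_eq ?_) (norm_inner_le_norm (𝕜 := 𝕜) _ _))
  rw [← Submodule.inner_starProjection_left_eq_right, Submodule.starProjection_eq_self_iff.2 f,
    D_inv, EuclideanSpace.inner_single_right]
  simp

lemma mc_mul (Φ : V 𝕜 n →L[𝕜] V 𝕜 d) (c : Fin l → V 𝕜 n) :
    mc (fun j => Φ (EuclideanSpace.single j 1)) * mc c = mc fun k => Φ (c k) := by
  ext i k
  conv_rhs => rw [mc, of_apply, ← T_single (c k), map_T, T_ap]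
  simp [mc, mul_apply, mul_comm]

lemma gram (a : Fin n → V 𝕜 d) : (mc a)ᴴ * mc a = of fun i j => ⟪a i, a j⟫_𝕜 := by
  ext i j
  simp [mc, mul_apply, PiLp.inner_apply, mul_comm]

lemma frob_c (a b : Fin n → V 𝕜 d) :
    ∑ i, ∑ k, ‖(mc a - mc b) i k‖ ^ 2 = ∑ k, ‖a k - b k‖ ^ 2 := by
  rw [Finset.sum_comm]
  refine Finset.sum_congr rfl fun k _ => ?_
  rw [EuclideanSpace.norm_sq_eq]
  simp [mc]

variable [MeasurableSpace 𝕜] [BorelSpace 𝕜]

lemma gh (ρ : Measure (G 𝕜 r)) [IsProbabilityMeasure ρ] [ρ.IsMulRightInvariant]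
    (K : Submodule 𝕜 (V 𝕜 r)) (t : ℕ) {v : Fin m → V 𝕜 r}
    (hv : finrank 𝕜 (Submodule.span 𝕜 (range v)) = m) :
    ∫⁻ u, Ψ K t u ∂(Measure.pi fun _ : Fin m => stdGaussian (V 𝕜 r)) ≤
      ∫⁻ W, Ψ K t (fun j => W.1 (v j)) ∂ρ := by
  have c : Continuous fun z : G 𝕜 r × (Fin m → V 𝕜 r) => fun j => z.1.1 (z.2 j) := by fun_prop
  refine (le_lint (μ := ρ) (f := fun W => ∫⁻ u, Ψ K t (fun j => W.1 (u j))
    ∂(Measure.pi fun _ : Fin m => stdGaussian (V 𝕜 r))) (ae_of_all _ fun W => ?_)).trans ?_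
  · exact ((measurePreserving_pi _ _ fun _ : Fin m => g_map W.1.continuous.measurable (star W).1
      (fun x y => by rw [ri 𝕜, ri 𝕜, ← W.1.adjoint_inner_right]; rfl)
      (Unitary.norm_map _)).lintegral_comp (Ψ_meas K t)).ge
  rw [lintegral_lintegral_swap (by exact ((Ψ_meas K t).comp c.measurable).aemeasurable)]
  refine lint_le ?_
  filter_upwards [li_ae (𝕜 := 𝕜) (E := V 𝕜 r) (Finset.univ : Finset (Fin m))
    (by rw [Finset.card_fin, ← hv]; exact Submodule.finrank_le _)] with u hu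
  rw [Finset.coe_univ, linearIndepOn_univ_iff] at hu
  let e := (stdOrthonormalBasis 𝕜 (Submodule.span 𝕜 (range v))).equiv
    (stdOrthonormalBasis 𝕜 (Submodule.span 𝕜 (range u)))
    (finCongr (hv.trans ((finrank_span_eq_card hu).trans (Fintype.card_fin _)).symm))
  let H := ((Submodule.subtypeₗᵢ _).comp e.toLinearIsometry).extend
  refine le_of_le_of_eq ?_
    (lintegral_mul_right_eq_self _ (Unitary.linearIsometryEquiv.symm (H.toLinearIsometryEquiv rfl)))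
  refine lintegral_mono fun W => Ψ_le K t fun a => ?_
  obtain ⟨y, hy⟩ := e.surjective ⟨T u a, by
    rw [T_ap]
    exact Submodule.sum_mem _ fun i _ =>
      Submodule.smul_mem _ _ (Submodule.subset_span (mem_range_self i))⟩
  obtain ⟨b, hb⟩ := (Submodule.mem_span_range_iff_exists_fun 𝕜).1 y.2
  refine ⟨WithLp.toLp 2 b, ?_⟩
  rw [← map_T W.1 u, ← map_T _ v, T_ap v, hb]
  exact congrArg W.1 ((LinearIsometry.extend_apply _ y).trans (congrArg Subtype.val hy)).symm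

omit [MeasurableSpace 𝕜] [BorelSpace 𝕜] in
lemma refl (ρ : Measure (G 𝕜 r)) [IsProbabilityMeasure ρ] [ρ.IsMulRightInvariant]
    (J : V 𝕜 r →ₗᵢ[𝕜] V 𝕜 d) (x : Fin n → V 𝕜 r) (S : Submodule 𝕜 (V 𝕜 r))
    (X : G 𝕜 r → Matrix (Fin d) (Fin n) 𝕜)
    (hX : ∀ U, X (U * Unitary.linearIsometryEquiv.symm Sᗮ.reflection) = X U)
    (hm : Measurable fun U : G 𝕜 r =>
      ENNReal.ofReal (∑ i, ∑ k, ‖(mc (fun j => J (U.1 (x j))) - X U) i k‖ ^ 2)) :
    ∑ j, ‖S.starProjection (x j)‖ₑ ^ 2 ≤ ∫⁻ U,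
      ENNReal.ofReal (∑ i, ∑ k, ‖(mc (fun j => J (U.1 (x j))) - X U) i k‖ ^ 2) ∂ρ := by
  rw [← ENNReal.mul_le_mul_iff_right two_ne_zero ENNReal.ofNat_ne_top, two_mul (lintegral _ _)]
  nth_rw 2 [← lintegral_mul_right_eq_self _ (Unitary.linearIsometryEquiv.symm Sᗮ.reflection)]
  rw [← lintegral_add_left hm]
  refine le_lint (ae_of_all _ fun U => ?_)
  obtain ⟨y, hy⟩ : ∃ y, X U = mc y := ⟨fun j => WithLp.toLp 2 fun i => X U i j, rfl⟩
  simp only [hX, hy, frob_c, en2]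
  rw [← ENNReal.ofReal_sum_of_nonneg fun _ _ => sq_nonneg _, two_mul,
    ← ENNReal.ofReal_add (by positivity) (by positivity),
    ← ENNReal.ofReal_add (by positivity) (by positivity), ← Finset.sum_add_distrib,
    ← Finset.sum_add_distrib]
  refine ENNReal.ofReal_le_ofReal (Finset.sum_le_sum fun j _ => ?_)
  have := parallelogram_law_with_norm 𝕜 (J (U.1 (x j - S.starProjection (x j))) - y j)
    (J (U.1 (S.starProjection (x j))))
  rw [J.norm_map, Unitary.norm_map, sub_add_eq_add_sub, sub_right_comm, ← map_add, ← map_add,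
    ← map_sub J, ← map_sub, sub_add_cancel, sub_sub, ← two_smul ℕ, ← neg_sub _ (x j),
    ← Submodule.reflection_apply, ← Submodule.reflection_orthogonal_apply] at this
  show _ ≤ _ + ‖J (U.1 (Sᗮ.reflection (x j))) - y j‖ ^ 2
  nlinarith [norm_nonneg (J (U.1 (x j - S.starProjection (x j))) - y j)]

end Pool.Agent.H.MP_569b71_an
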